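import Pool.Agent.TH996.Limit

set_option autoImplicit false

/-! Project PK (helper984), piece LOC: deterministic locality of the parking process. -/

namespace Pool.Agent.Run7.h327.PK

open Finset
open Pool.Agent.TH996.Park

variable {V : Type} [DecidableEq V] (up : V → Finset V)

lemma an_loc (ω ω' : (V → Bool) × (ℕ × V × ℕ → V)) (t : ℕ) (y : V)
    (hC : ∀ z ∈ up y, Cn up t z (emb ω) = Cn up t z (emb ω'))
    (hξ : ∀ z ∈ up y, ∀ i, ω.2 (t, z, i) = ω'.2 (t, z, i)) :
    An up t y (emb ω) = An up t y (emb ω') := by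
  have e : ∀ η : (V → Bool) × (ℕ × V × ℕ → V), An up t y (emb η) =
      ∑ z ∈ up y, ((range (Cn up t z (emb η))).filter fun i => η.2 (t, z, i) = y).card := by
    intro η
    have h := ar_eq up (emb η).2.1 (emb η).2.2 (c0 (emb η).1) (f0 (emb η).1) t y
    refine Eq.trans h (sum_congr rfl fun z _ => ?_)
    congr 1
    refine filter_congr fun i _ => ?_
    exact ⟨fun h => h.2, fun h => ⟨rfl, h⟩⟩
  rw [e ω, e ω']
  refine sum_congr rfl fun z hz => ?_
  rw [hC z hz]
  congr 1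
  refine filter_congr fun i _ => ?_
  rw [hξ z hz i]

lemma cn_loc (cone : V → Set V) (hself : ∀ y, y ∈ cone y)
    (hsub : ∀ y, ∀ z ∈ up y, ∀ w ∈ cone z, w ∈ cone y ∧ w ≠ y)
    (ω ω' : (V → Bool) × (ℕ × V × ℕ → V)) (t : ℕ) :
    ∀ y : V, (∀ z ∈ cone y, ω.1 z = ω'.1 z) →
      (∀ z ∈ cone y, z ≠ y → ∀ s i, ω.2 (s, z, i) = ω'.2 (s, z, i)) →
      Cn up t y (emb ω) = Cn up t y (emb ω') ∧ Fn up t y (emb ω) = Fn up t y (emb ω') := by
  induction t with
  | zero =>
    intro y h1 _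
    have h := h1 y (hself y)
    constructor
    · show c0 ω.1 y = c0 ω'.1 y
      unfold c0
      rw [h]
    · show f0 ω.1 y = f0 ω'.1 y
      unfold f0
      rw [h]
  | succ t ih =>
    intro y h1 h2
    have hF := (ih y h1 h2).2
    have hA : An up t y (emb ω) = An up t y (emb ω') := by
      refine an_loc up ω ω' t y (fun z hz => ?_) (fun z hz i => ?_)
      · refine (ih z (fun w hw => h1 w (hsub y z hz w hw).1) (fun w hw _ s i => ?_)).1
        exact h2 w (hsub y z hz w hw).1 (hsub y z hz w hw).2 s i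
      · have h3 := hsub y z hz z (hself z)
        exact h2 z h3.1 h3.2 t i
    have e1 : ∀ η : (V → Bool) × (ℕ × V × ℕ → V), Cn up (t + 1) y (emb η) =
        An up t y (emb η) - Fn up t y (emb η) := fun _ => rfl
    have e2 : ∀ η : (V → Bool) × (ℕ × V × ℕ → V), Fn up (t + 1) y (emb η) =
        Fn up t y (emb η) - An up t y (emb η) := fun _ => rfl
    rw [e1, e1, e2, e2, hA, hF]
    exact ⟨rfl, rfl⟩

/-- LOC: the body of `S_LOC` with the abbreviations unfolded -/
theorem loc (V : Type) [DecidableEq V] (up : V → Finset V) (cone : V → Set V)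
    (hself : ∀ y, y ∈ cone y) (hsub : ∀ y, ∀ z ∈ up y, ∀ w ∈ cone z, w ∈ cone y ∧ w ≠ y)
    (ω ω' : (V → Bool) × (ℕ × V × ℕ → V)) (y : V)
    (h : ∀ z ∈ cone y, z ≠ y → ω.1 z = ω'.1 z ∧ ∀ t i, ω.2 (t, z, i) = ω'.2 (t, z, i)) :
    (∀ t, An up t y (emb ω) = An up t y (emb ω')) ∧
    (∀ T, ∑ t ∈ range T, An up t y (emb ω) = ∑ t ∈ range T, An up t y (emb ω')) ∧
    (ω.1 y = ω'.1 y → ∀ T, Cn up T y (emb ω) = Cn up T y (emb ω') ∧
      Fn up T y (emb ω) = Fn up T y (emb ω') ∧
      ∑ t ∈ range T, Cn up t y (emb ω) = ∑ t ∈ range T, Cn up t y (emb ω')) := by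
  have hA : ∀ t, An up t y (emb ω) = An up t y (emb ω') := by
    intro t
    refine an_loc up ω ω' t y (fun z hz => ?_) (fun z hz i => ?_)
    · refine (cn_loc up cone hself hsub ω ω' t z (fun w hw => ?_) (fun w hw _ s i => ?_)).1
      · exact (h w (hsub y z hz w hw).1 (hsub y z hz w hw).2).1
      · exact (h w (hsub y z hz w hw).1 (hsub y z hz w hw).2).2 s i
    · have h3 := hsub y z hz z (hself z)
      exact (h z h3.1 h3.2).2 t i
  refine ⟨hA, fun T => sum_congr rfl fun t _ => hA t, fun hy T => ?_⟩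
  have hC : ∀ t, Cn up t y (emb ω) = Cn up t y (emb ω') ∧ Fn up t y (emb ω) = Fn up t y (emb ω') := by
    intro t
    refine cn_loc up cone hself hsub ω ω' t y (fun z hz => ?_) (fun z hz hne s i => (h z hz hne).2 s i)
    by_cases hzy : z = y
    · rw [hzy]
      exact hy
    · exact (h z hz hzy).1
  exact ⟨(hC T).1, (hC T).2, sum_congr rfl fun t _ => (hC t).1⟩

end Pool.Agent.Run7.h327.PK
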